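import Pool.Agent.Y221.BD.Cv
import Pool.Agent.TH143.GT.Desc
import Pool.Agent.W602.GT.Orb
import Pool.Agent.W602.GT.UniDefs
import Pool.Agent.TH710.NW.Lgt

/-!
Projective varieties given by towers: covered by lines if and only if uniruled.
-/

set_option autoImplicit false

open FF MvPolynomial

namespace Pool.Agent.X333.NK

open Pool.Agent.W602.GT (val coords IsForm Uniruled val_smul exists_embedding)

/-- a family of rational curves gives an embedding in a field of rational functions -/
theorem uniruled_of_fam {n : ℕ} {K M : Type} [Field K] [Algebra ℂ K] [Field M] [Algebra ℂ M]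
    {y : Fin (n + 1) → K} (hy : y ≠ 0) (hgen : coords ℂ y = ⊤) {Q : MvPolynomial (Fin (n + 1)) ℂ}
    {W : Fin (n + 1) → Polynomial M} {l : ℕ} (hFam : Pool.Agent.TH143.GT.Fam y Q W l) {r : K}
    (hr : ¬ Pool.Agent.TH143.GT.Flat ℂ y W r) : Uniruled ℂ K := by
  classical
  unfold Pool.Agent.TH143.GT.Flat at hr
  push Not at hr
  obtain ⟨d, g1, g0, hg1, hg0, hg00, -, hder⟩ := hr
  let T : Finset M := Finset.univ.biUnion fun j => (W j).support.image fun n => (W j).coeff n
  let M' : IntermediateField ℂ M := IntermediateField.adjoin ℂ (T : Set M)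
  have hess : Algebra.EssFiniteType ℂ M' :=
    IntermediateField.essFiniteType_iff.2 ⟨T, rfl⟩
  have hl : ∀ j, ∃ w : Polynomial M', w.map (M'.val : M' →+* M) = W j := by
    intro j
    have h1 : W j ∈ Polynomial.lifts (M'.val : M' →+* M) := by
      rw [Polynomial.lifts_iff_coeff_lifts]
      intro n
      by_cases hn : (W j).coeff n = 0
      · rw [hn]
        exact ⟨0, map_zero _⟩
      · have h2 : (W j).coeff n ∈ M' := by
          apply IntermediateField.subset_adjoin
          simp only [T, Finset.coe_biUnion, Finset.mem_coe, Finset.mem_univ, Set.iUnion_true,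
            Set.mem_iUnion, Finset.mem_image]
          exact ⟨j, n, Polynomial.mem_support_iff.2 hn, rfl⟩
        exact ⟨⟨_, h2⟩, rfl⟩
    exact (Polynomial.mem_lifts _).1 h1
  choose W' hW' using hl
  have hMinj : Function.Injective (M'.val : M' →+* M) := M'.val.toRingHom.injective
  have hmap : ∀ G : MvPolynomial (Fin (n + 1)) ℂ,
      (aeval W' G).map (M'.val : M' →+* M) = aeval W G := by
    intro G
    rw [Pool.Agent.TH143.GT.map_aeval' M'.val W' G]
    congr 1
    congr 1
    funext j
    exact hW' j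
  let y' : Fin (n + 1) → RatFunc M' := fun j => Pool.Agent.TH143.GT.rf (W' j)
  have hvy : ∀ G : MvPolynomial (Fin (n + 1)) ℂ, val y' G =
      Pool.Agent.TH143.GT.rf (aeval W' G) := fun G => Pool.Agent.TH143.GT.val_rf W' G
  have hrel : ∀ G : MvPolynomial (Fin (n + 1)) ℂ, IsForm G → (val y G = 0 ↔ val y' G = 0) := by
    intro G hG
    rw [hFam.rel G hG, hvy, Pool.Agent.TH143.GT.rf_zero, ← hmap,
      Polynomial.map_eq_zero_iff hMinj]
  obtain ⟨i0, hi0'⟩ := Function.ne_iff.1 hy
  have hi0 : y i0 ≠ 0 := hi0'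
  have hi0y : y' i0 ≠ 0 := by
    intro h0
    apply hi0
    have h1 := (hrel (X i0) ⟨1, isHomogeneous_X _ _⟩).2 (by
      unfold Pool.Agent.W602.GT.val
      rw [aeval_X]
      exact h0)
    unfold Pool.Agent.W602.GT.val at h1
    rwa [aeval_X] at h1
  obtain ⟨φ, hφ⟩ := exists_embedding hi0 hi0y hgen hrel
  have hφv : ∀ G : MvPolynomial (Fin (n + 1)) ℂ, φ (val (fun j => y j / y i0) G) =
      val (fun j => y' j / y' i0) G := by
    intro G
    unfold Pool.Agent.W602.GT.val
    have h1 := MvPolynomial.comp_aeval_apply (f := fun j => y j / y i0) φ G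
    rw [h1]
    congr 1
    congr 1
    funext j
    exact hφ j
  refine ⟨M', inferInstance, inferInstance, hess, φ,
    val (fun j => y j / y i0) g1 / val (fun j => y j / y i0) g0, ?_⟩
  rintro ⟨c, hc⟩
  rw [map_div₀, hφv, hφv] at hc
  have e1 : ∀ {E : Type} [Field E] [Algebra ℂ E] (u : Fin (n + 1) → E) (a : E),
      (fun j => u j / a) = fun j => a⁻¹ * u j := by
    intro E _ _ u a
    funext j
    rw [div_eq_mul_inv, mul_comm]
  rw [e1, val_smul hg1, val_smul hg0, hvy, hvy] at hc
  have h0' : Pool.Agent.TH143.GT.rf (aeval W' g0) ≠ 0 := by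
    rw [← hvy]
    intro h0
    exact hg00 ((hrel g0 ⟨d, hg0⟩).2 h0)
  have hp : ((y' i0)⁻¹ : RatFunc M') ^ d ≠ 0 := pow_ne_zero _ (inv_ne_zero hi0y)
  have h2 : Pool.Agent.TH143.GT.rf (aeval W' g1) =
      Pool.Agent.TH143.GT.rf (Polynomial.C c * aeval W' g0) := by
    have h3 : algebraMap M' (RatFunc M') c = Pool.Agent.TH143.GT.rf (Polynomial.C c) := by
      unfold Pool.Agent.TH143.GT.rf
      rw [IsScalarTower.algebraMap_apply M' (Polynomial M') (RatFunc M')]
      rfl
    rw [Pool.Agent.TH143.GT.rf_mul, ← h3, hc]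
    field_simp
  have h4 := Pool.Agent.TH143.GT.rf_inj h2
  apply hder
  have h5 : (aeval W g1 : Polynomial M) = Polynomial.C (c : M) * aeval W g0 := by
    rw [← hmap, h4, Polynomial.map_mul, hmap, Polynomial.map_C]
    rfl
  rw [h5, Polynomial.derivative_C_mul]
  ring

/-- **Entire curves through the general points of a uniruled variety.** -/
theorem curve_of_embedding {C L : Type} [Field C] [Field L] [Algebra ℂ C] [Algebra ℂ L]
    (φ : L →ₐ[ℂ] RatFunc C) (hφ : ∃ z, φ z ∉ Set.range (algebraMap C (RatFunc C))) {M : ℕ}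
    {x : Fin (M + 1) → L} (hx : x ≠ 0) (hgen : coords ℂ x = ⊤)
    {R : MvPolynomial (Fin (M + 1)) ℂ} (hRf : IsForm R) (hRx : val x R ≠ 0) :
    ∃ f : Fin (M + 1) → ℂ → ℂ, Pool.Agent.Y221.BD.EntireCurve x f ∧
      ∃ t, MvPolynomial.eval (fun i => f i t) R ≠ 0 := by
  classical
  obtain ⟨i1, hi1'⟩ := Function.ne_iff.1 hx
  have hi1 : x i1 ≠ 0 := hi1'
  let Cf : IntermediateField ℂ (RatFunc C) := (IsScalarTower.toAlgHom ℂ C (RatFunc C)).fieldRange
  have hCf : ∀ z, z ∈ Cf ↔ z ∈ Set.range (algebraMap C (RatFunc C)) := fun z => Iff.rfl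
  -- a coordinate which is not in `C`
  obtain ⟨i2, hi2⟩ : ∃ i, φ (x i / x i1) ∉ Cf := by
    by_contra hcon
    push Not at hcon
    obtain ⟨z, hz⟩ := hφ
    apply hz
    rw [← hCf]
    have h1 : (⊤ : IntermediateField ℂ L) ≤ Cf.comap φ := by
      rw [← Pool.Agent.TH466.QG.adjoin_norm hgen hi1, IntermediateField.adjoin_le_iff]
      rintro _ ⟨i, rfl⟩
      exact hcon i
    exact h1 (IntermediateField.mem_top (x := z))
  let ι : Polynomial C →+* RatFunc C := algebraMap (Polynomial C) (RatFunc C)
  have hinj : Function.Injective ι := RatFunc.algebraMap_injective C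
  -- polynomials
  have hrep : ∀ i, ∃ r s : Polynomial C, ι s ≠ 0 ∧ φ (x i / x i1) * ι s = ι r := by
    intro i
    refine ⟨(φ (x i / x i1)).num, (φ (x i / x i1)).denom, ?_, ?_⟩
    · rw [Ne, map_eq_zero_iff ι hinj]
      exact RatFunc.denom_ne_zero _
    · have h1 := RatFunc.num_div_denom (φ (x i / x i1))
      have h2 : ι (φ (x i / x i1)).denom ≠ 0 := by
        rw [Ne, map_eq_zero_iff ι hinj]
        exact RatFunc.denom_ne_zero _
      change ι (φ (x i / x i1)).num / ι (φ (x i / x i1)).denom = _ at h1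
      rw [div_eq_iff h2] at h1
      exact h1.symm
  choose r s hs hrs using hrep
  let Q : Polynomial C := ∏ j, s j
  let P : Fin (M + 1) → Polynomial C := fun i => r i * ∏ j ∈ Finset.univ.erase i, s j
  have hQ : ∀ i, Q = s i * ∏ j ∈ Finset.univ.erase i, s j := fun i =>
    (Finset.mul_prod_erase _ _ (Finset.mem_univ i)).symm
  have hQ0 : ι Q ≠ 0 := by
    simp only [Q]
    rw [map_prod]
    exact Finset.prod_ne_zero_iff.2 fun j _ => hs j
  have hPQ : ∀ i, ι (P i) = ι Q * φ (x i / x i1) := by
    intro i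
    simp only [P]
    rw [hQ i, map_mul, map_mul, ← hrs i]
    ring
  have hPi1 : P i1 = Q := by
    apply hinj
    rw [hPQ, div_self hi1, map_one, mul_one]
  -- forms
  have hval : ∀ (G : MvPolynomial (Fin (M + 1)) ℂ) {d : ℕ}, G.IsHomogeneous d →
      ι (MvPolynomial.aeval P G) = (ι Q / φ (x i1)) ^ d * φ (val x G) := by
    intro G d hG
    have h1 : (IsScalarTower.toAlgHom ℂ (Polynomial C) (RatFunc C)).comp
        (MvPolynomial.aeval P) = MvPolynomial.aeval fun i => ι (P i) := by
      apply MvPolynomial.algHom_ext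
      intro i
      rw [AlgHom.comp_apply, MvPolynomial.aeval_X, MvPolynomial.aeval_X]
      rfl
    have h2 := DFunLike.congr_fun h1 G
    have h3 : (fun i => ι (P i)) = fun i => (ι Q / φ (x i1)) * φ (x i) := by
      funext i
      rw [hPQ, map_div₀]
      ring
    rw [h3] at h2
    refine Eq.trans h2 ?_
    have h4 := val_smul (L := RatFunc C) hG (ι Q / φ (x i1)) (fun i => φ (x i))
    refine Eq.trans h4 ?_
    congr 1
    unfold Pool.Agent.W602.GT.val
    exact (MvPolynomial.comp_aeval_apply (f := x) φ G).symm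
  have hc0 : ι Q / φ (x i1) ≠ 0 := div_ne_zero hQ0 ((map_ne_zero _).2 hi1)
  have hzero : ∀ G : MvPolynomial (Fin (M + 1)) ℂ, IsForm G →
      (MvPolynomial.aeval P G = 0 ↔ val x G = 0) := by
    rintro G ⟨d, hG⟩
    constructor
    · intro h
      have h1 := hval G hG
      rw [h, map_zero] at h1
      have h2 := (mul_eq_zero.1 h1.symm).resolve_left (pow_ne_zero _ hc0)
      exact (map_eq_zero _).1 h2
    · intro h
      apply hinj
      rw [hval G hG, h, map_zero, mul_zero, map_zero]
  -- a minor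
  obtain ⟨d, d', hm⟩ : ∃ d d', (P i2).coeff d * (P i1).coeff d' ≠
      (P i1).coeff d * (P i2).coeff d' := by
    by_contra hcon
    push Not at hcon
    apply hi2
    have hQ' : P i1 ≠ 0 := by
      rw [hPi1]
      rintro h0
      rw [h0, map_zero] at hQ0
      exact hQ0 rfl
    obtain ⟨d', hd'⟩ : ∃ d', (P i1).coeff d' ≠ 0 := by
      by_contra h
      push Not at h
      exact hQ' (Polynomial.ext fun l => by rw [h l, Polynomial.coeff_zero])
    have h1 : P i2 = Polynomial.C ((P i2).coeff d' / (P i1).coeff d') * P i1 := by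
      ext1 l
      rw [Polynomial.coeff_C_mul]
      have := hcon l d'
      field_simp
      linear_combination this
    have h2 : ι (P i2) = ι (Polynomial.C ((P i2).coeff d' / (P i1).coeff d')) * ι (P i1) :=
      (congrArg ι h1).trans (map_mul ι _ _)
    rw [hPQ i2, hPi1] at h2
    rw [hCf]
    refine ⟨(P i2).coeff d' / Q.coeff d', ?_⟩
    apply mul_left_cancel₀ hQ0
    rw [h2, IsScalarTower.algebraMap_apply C (Polynomial C) (RatFunc C), mul_comm]
    rfl
  obtain ⟨p, hp1, hp2, hp3⟩ := Pool.Agent.Y221.BD.poly_spec P hm (R := R)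
    (fun h0 => hRx ((hzero R hRf).1 h0))
  -- nonconstant
  have hab : ∃ a b, (p i2).eval a * (p i1).eval b ≠ (p i1).eval a * (p i2).eval b := by
    by_contra hcon
    push Not at hcon
    apply hp3
    by_cases h0 : p i1 = 0
    · rw [h0]
      simp
    · obtain ⟨b, hb⟩ : ∃ b, (p i1).eval b ≠ 0 := by
        by_contra h
        push Not at h
        exact h0 (Polynomial.funext fun t => by rw [h t, Polynomial.eval_zero])
      have h1 : p i2 = Polynomial.C ((p i2).eval b / (p i1).eval b) * p i1 := by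
        apply Polynomial.funext
        intro t
        rw [Polynomial.eval_mul, Polynomial.eval_C]
        have := hcon t b
        field_simp
        linear_combination this
      rw [h1, Polynomial.coeff_C_mul, Polynomial.coeff_C_mul]
      ring
  obtain ⟨a, b, hab⟩ := hab
  exact Pool.Agent.Y221.BD.curve_of_poly p (fun G hG hxG => hp1 G ((hzero G hG).2 hxG)) hab hRf hp2

end Pool.Agent.X333.NK
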